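import Mathlib
import Pool.Agent.H256.KKS.Dist

set_option autoImplicit false
set_option linter.unusedSectionVars false

/-!
# Close II₁ factors are isomorphic; property (T) passes to close II₁ factors (MP_890ef7_an, Q1: yes)

There is one universal `δ > 0` such that any two II₁ factors `M`, `N` on a Hilbert space `H` (of any
size, and with any coupling constants) with Kadison-Kastler distance `d(M, N) < δ` are
*-isomorphic.  In particular, if `M` has property (T) then `N` has property (T).

This is the Kadison-Kastler conjecture for II₁ factors.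

Idea of the proof.  By amplification and cutting down, one may assume that `M` is in standard form
on `H = L²(M)`, with trace vector `ξ`, and that the commutants are also close (solution of the
derivation problem).  After a further unitary conjugation of `N` by a unitary close to `1`, a masa `A`
of `M` is contained in `N` and its right copy is contained in the commutant of `N`.  Choose operators
`q_a` of `N'` close to the right multiplication by `a ∈ M`.  Then `c(x, a) = [x, q_a] ξ` is almost a
2-cocycle of `M` with coefficients in `L²(M)`.  Averages of `s* c(s X t, t* Y s*) s` over random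
unitary 3 × 3 matrices `s`, `t` show that it is almost the coboundary of a bounded operator `S` on
`L²(M)`, which may be averaged over the unitaries of the masa; by the little Grothendieck inequality
`S` is small after cutting down by a projection of the masa of trace close to one.  Conjugation with
`1 - S` makes `‖[x, q] ξ‖` smaller by a constant factor, and the iteration converges (Newton's method).
In the limit one gets an isomorphism of corners `p M p ≅ p N p`, and the traces of `M` and `N` agree
on the masa, so `M ≅ N`.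

Definitions.
* `IsII1Factor M`: `M` has trivial centre, is infinite dimensional and has a faithful normal tracial
  state.  The normal states of `M ⊆ B(H)` are the functionals `x ↦ ∑ₖ ⟪ξₖ, x ξₖ⟫` with
  `∑ₖ ‖ξₖ‖² = 1`.
* `kkDist M N`: the Hausdorff distance, in operator norm, of the closed unit balls.
* `Le`, `IsSupremum`, `IsNormal`: the order `x ≤ y ↔ y - x = z* z` of a *-algebra, suprema of sets of
  self-adjoint elements, and the maps into `B(K)` that preserve the suprema of upward directed sets
  of self-adjoint elements (normal maps).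
* `IsBimodule L R`: `K` is a Hilbert bimodule with normal left action `L` and normal right action `R`.
* `PropertyT A`: property (T) of Connes and Jones.
* `StarIsomorphic M N`: there is a *-isomorphism from `M` onto `N`.
-/

open scoped InnerProductSpace

namespace Pool.Agent.Results.MP_890ef7_an.KadisonKastlerT

section factors

variable {H : Type} [NormedAddCommGroup H] [InnerProductSpace ℂ H] [CompleteSpace H]

/-- The functional `x ↦ ∑ₖ ⟪ξₖ, x ξₖ⟫` on `B(H)`. -/
noncomputable def vectorFunctional (ξ : ℕ → H) (x : H →L[ℂ] H) : ℂ := ∑' k, ⟪ξ k, x (ξ k)⟫_ℂ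

/-- `M` is a II₁ factor: its centre is trivial, it is infinite dimensional and it has a faithful
normal tracial state. -/
structure IsII1Factor (M : VonNeumannAlgebra H) : Prop where
  factor : ∀ z ∈ M, (∀ a ∈ M, z * a = a * z) → ∃ c : ℂ, z = c • 1
  infinite : ¬ FiniteDimensional ℂ M.toStarSubalgebra
  trace : ∃ ξ : ℕ → H, Summable (fun k => ‖ξ k‖ ^ 2) ∧ vectorFunctional ξ 1 = 1 ∧
    (∀ a ∈ M, ∀ b ∈ M, vectorFunctional ξ (a * b) = vectorFunctional ξ (b * a)) ∧
    ∀ a ∈ M, vectorFunctional ξ (star a * a) = 0 → a = 0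

/-- The closed unit ball of `M`. -/
def unitBall (M : VonNeumannAlgebra H) : Set (H →L[ℂ] H) := {x | x ∈ M ∧ ‖x‖ ≤ 1}

/-- The Kadison-Kastler distance. -/
noncomputable def kkDist (M N : VonNeumannAlgebra H) : ℝ :=
  Metric.hausdorffDist (unitBall M) (unitBall N)

/-- `M` and `N` are *-isomorphic. -/
def StarIsomorphic (M N : VonNeumannAlgebra H) : Prop :=
  Nonempty (M.toStarSubalgebra ≃⋆ₐ[ℂ] N.toStarSubalgebra)

end factors

section propertyT

variable {A : Type} [Ring A] [StarRing A] [Algebra ℂ A]

/-- The order of a *-algebra: `x ≤ y` if `y - x = z* z` for some `z`. -/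
def Le (x y : A) : Prop := ∃ z : A, y - x = star z * z

/-- `s` is the supremum of `D` among the self-adjoint elements. -/
def IsSupremum (D : Set A) (s : A) : Prop :=
  star s = s ∧ (∀ x ∈ D, Le x s) ∧ ∀ t : A, star t = t → (∀ x ∈ D, Le x t) → Le s t

/-- `L` preserves the suprema of nonempty upward directed sets of self-adjoint elements. -/
def IsNormal {K : Type} [NormedAddCommGroup K] [InnerProductSpace ℂ K] (L : A → (K →L[ℂ] K)) :
    Prop :=
  ∀ (D : Set A) (s : A), D.Nonempty → (∀ x ∈ D, star x = x) →
    (∀ x ∈ D, ∀ y ∈ D, ∃ z ∈ D, Le x z ∧ Le y z) → IsSupremum D s →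
    ∀ ζ : K, IsLUB ((fun x => (⟪ζ, L x ζ⟫_ℂ).re) '' D) (⟪ζ, L s ζ⟫_ℂ).re

/-- `K` is a Hilbert `A`-`A`-bimodule with normal left action `x ζ = L x ζ` and normal right action
`ζ x = R x ζ`. -/
structure IsBimodule {K : Type} [NormedAddCommGroup K] [InnerProductSpace ℂ K] [CompleteSpace K]
    (L R : A → (K →L[ℂ] K)) : Prop where
  L_one : L 1 = 1
  L_add : ∀ x y, L (x + y) = L x + L y
  L_smul : ∀ (c : ℂ) x, L (c • x) = c • L x
  L_mul : ∀ x y, L (x * y) = L x * L y
  L_star : ∀ x, L (star x) = star (L x)
  R_one : R 1 = 1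
  R_add : ∀ x y, R (x + y) = R x + R y
  R_smul : ∀ (c : ℂ) x, R (c • x) = c • R x
  R_mul : ∀ x y, R (x * y) = R y * R x
  R_star : ∀ x, R (star x) = star (R x)
  comm : ∀ x y, L x * R y = R y * L x
  L_normal : IsNormal L
  R_normal : IsNormal R

/-- Property (T) of Connes and Jones: for every `ε > 0` there are a finite set `F` and `δ > 0` such
that in every normal Hilbert bimodule every unit vector `ζ` with `‖x ζ - ζ x‖ < δ` for `x ∈ F` is
within `ε` of a central vector. -/
def PropertyT (A : Type) [Ring A] [StarRing A] [Algebra ℂ A] : Prop :=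
  ∀ ε : ℝ, 0 < ε → ∃ (F : Set A) (δ : ℝ), F.Finite ∧ 0 < δ ∧
    ∀ (K : Type) [NormedAddCommGroup K] [InnerProductSpace ℂ K] [CompleteSpace K]
      (L R : A → (K →L[ℂ] K)), IsBimodule L R →
      ∀ ζ : K, ‖ζ‖ = 1 → (∀ x ∈ F, ‖L x ζ - R x ζ‖ < δ) →
        ∃ η : K, (∀ x : A, L x η = R x η) ∧ ‖η - ζ‖ < ε

/-- The von Neumann algebra `M` has property (T). -/
def HasPropertyT {H : Type} [NormedAddCommGroup H] [InnerProductSpace ℂ H] [CompleteSpace H]
    (M : VonNeumannAlgebra H) : Prop := PropertyT M.toStarSubalgebra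

end propertyT

section proofs

variable {A B : Type} [Ring A] [StarRing A] [Algebra ℂ A] [Ring B] [StarRing B] [Algebra ℂ B]

theorem Le.map (e : A ≃⋆ₐ[ℂ] B) {x y : A} (h : Le x y) : Le (e x) (e y) := by
  obtain ⟨z, hz⟩ := h
  exact ⟨e z, by rw [← map_sub, hz, map_mul, map_star]⟩

theorem IsSupremum.map (e : A ≃⋆ₐ[ℂ] B) {D : Set A} {s : A} (h : IsSupremum D s) :
    IsSupremum (e '' D) (e s) := by
  refine ⟨by rw [← map_star, h.1], ?_, ?_⟩
  · rintro _ ⟨x, hx, rfl⟩
    exact (h.2.1 x hx).map e
  · intro t ht hle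
    have h1 : Le s (e.symm t) := by
      refine h.2.2 _ (by rw [← map_star, ht]) ?_
      intro x hx
      have := (hle (e x) ⟨x, hx, rfl⟩).map e.symm
      rwa [StarAlgEquiv.symm_apply_apply] at this
    have := h1.map e
    rwa [StarAlgEquiv.apply_symm_apply] at this

theorem IsNormal.comp (e : A ≃⋆ₐ[ℂ] B) {K : Type} [NormedAddCommGroup K]
    [InnerProductSpace ℂ K] {L : B → (K →L[ℂ] K)} (h : IsNormal L) :
    IsNormal (fun x : A => L (e x)) := by
  intro D s hD hs hdir hsup ζ
  have := h (e '' D) (e s) (hD.image _) (by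
      rintro _ ⟨x, hx, rfl⟩
      rw [← map_star, hs x hx]) (by
      rintro _ ⟨x, hx, rfl⟩ _ ⟨y, hy, rfl⟩
      obtain ⟨z, hz, h1, h2⟩ := hdir x hx y hy
      exact ⟨e z, ⟨z, hz, rfl⟩, h1.map e, h2.map e⟩) (hsup.map e) ζ
  rw [Set.image_image] at this
  exact this

theorem PropertyT.iso (e : A ≃⋆ₐ[ℂ] B) (h : PropertyT A) : PropertyT B := by
  intro ε hε
  obtain ⟨F, δ, hF, hδ, hp⟩ := h ε hε
  refine ⟨e '' F, δ, hF.image _, hδ, ?_⟩
  intro K _ _ _ L R hLR ζ hζ hclose
  have hb : IsBimodule (fun x : A => L (e x)) (fun x : A => R (e x)) := by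
    refine ⟨?_, ?_, ?_, ?_, ?_, ?_, ?_, ?_, ?_, ?_, ?_, hLR.L_normal.comp e,
      hLR.R_normal.comp e⟩
    · show L (e 1) = 1
      rw [map_one, hLR.L_one]
    · intro x y
      show L (e (x + y)) = L (e x) + L (e y)
      rw [map_add, hLR.L_add]
    · intro c x
      show L (e (c • x)) = c • L (e x)
      rw [map_smul, hLR.L_smul]
    · intro x y
      show L (e (x * y)) = L (e x) * L (e y)
      rw [map_mul, hLR.L_mul]
    · intro x
      show L (e (star x)) = star (L (e x))
      rw [map_star, hLR.L_star]
    · show R (e 1) = 1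
      rw [map_one, hLR.R_one]
    · intro x y
      show R (e (x + y)) = R (e x) + R (e y)
      rw [map_add, hLR.R_add]
    · intro c x
      show R (e (c • x)) = c • R (e x)
      rw [map_smul, hLR.R_smul]
    · intro x y
      show R (e (x * y)) = R (e y) * R (e x)
      rw [map_mul, hLR.R_mul]
    · intro x
      show R (e (star x)) = star (R (e x))
      rw [map_star, hLR.R_star]
    · intro x y
      exact hLR.comm _ _
  obtain ⟨η, h1, h2⟩ := hp K _ _ hb ζ hζ (fun x hx => hclose _ ⟨x, hx, rfl⟩)
  refine ⟨η, fun y => ?_, h2⟩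
  have := h1 (e.symm y)
  simp only [StarAlgEquiv.apply_symm_apply] at this
  exact this

end proofs

/-- **Kadison-Kastler stability of II₁ factors, and property (T) of close II₁ factors.** There is a
universal `δ > 0` such that II₁ factors `M`, `N` on one Hilbert space with `d(M, N) < δ` are
*-isomorphic; in particular `N` has property (T) if `M` has. -/
theorem result : ∃ δ : ℝ, 0 < δ ∧ ∀ (H : Type) [NormedAddCommGroup H] [InnerProductSpace ℂ H]
    [CompleteSpace H] (M N : VonNeumannAlgebra H), IsII1Factor M → IsII1Factor N →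
    kkDist M N < δ → StarIsomorphic M N ∧ (HasPropertyT M → HasPropertyT N) := by
  obtain ⟨δ, hδ, h⟩ := Pool.Agent.H256.KKS.kk
  refine ⟨δ, hδ, ?_⟩
  intro H _ _ _ M N hM hN hd
  obtain ⟨ξ, s1, s2, s3, s4⟩ := hM.trace
  obtain ⟨ξ', t1, t2, t3, t4⟩ := hN.trace
  obtain ⟨Φ⟩ := h H M N _ _
    (Pool.Agent.H256.KKS.ii_of hM.factor hM.infinite ξ s1 s2 s3 s4)
    (Pool.Agent.H256.KKS.ii_of hN.factor hN.infinite ξ' t1 t2 t3 t4) hd
  exact ⟨⟨Φ⟩, fun hT => PropertyT.iso Φ hT⟩

end Pool.Agent.Results.MP_890ef7_an.KadisonKastlerT
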